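import Pool.Agent.Work.MP_0bf9cb_lc.Eth.Transfer
import Pool.Agent.Work.MP_0bf9cb_lc.Eth

/-!
A deterministic algorithm for the vertex enumeration decision problem for polytopes that runs in
time `N ^ o(log N / log log N)`, in particular a polynomial-time one, refutes the exponential
time hypothesis.
-/

open Pool.Agent.Work.MP_0bf9cb_lc Pool.Agent.Work.MP_0bf9cb_lc.Eth in
theorem Pool.Agent.Results.MP_0bf9cb_lc.EthLowerBound.result
    (M : Turing.TM2ComputableAux Bool Bool) (T : ℕ → ℕ)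
    (hT : (fun N : ℕ => Real.log (T N)) =o[Filter.atTop]
      fun N : ℕ => Real.log N ^ 2 / Real.log (Real.log N))
    (hM : ∀ (m d n : ℕ) (A : Fin m → Fin d → ℚ) (b : Fin m → ℚ) (V : Fin n → Fin d → ℚ)
      (P : Set (Fin d → ℝ)) (w : List Bool),
      P = {x | ∀ i, ∑ j, (A i j : ℝ) * x j ≤ b i} →
      w = N487b59b3.bitEncode (List.ofFn fun i => List.ofFn (A i), List.ofFn b,
        List.ofFn fun k => List.ofFn (V k)) →
      Bornology.IsBounded P → Function.Injective V →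
      (∀ k, (fun j => (V k j : ℝ)) ∈ P.extremePoints ℝ) → ∀ ans : Bool,
      (ans = true ↔ ∃ x ∈ P.extremePoints ℝ, ∀ k, x ≠ fun j => (V k j : ℝ)) →
      Nonempty (Turing.TM2OutputsInTime M.tm (w.map M.inputAlphabet.invFun)
        (some ([ans].map M.outputAlphabet.invFun)) (T w.length))) :
    ∀ k : ℕ, 0 < k → ∃ (M' : Turing.TM2ComputableAux Bool Bool) (c : ℕ),
      (∀ j, Finite (M'.tm.Γ j)) ∧
      ∀ (φ : List (List (ℕ × Bool))) (w : List Bool), w = N487b59b3.bitEncode φ →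
        (∀ C ∈ φ, C.length ≤ 3) → ∀ ans : Bool,
        (ans = true ↔ ∃ a : ℕ → Bool, ∀ C ∈ φ, ∃ l ∈ C, a l.1 = l.2) →
        Nonempty (Turing.TM2OutputsInTime M'.tm (w.map M'.inputAlphabet.invFun)
          (some ([ans].map M'.outputAlphabet.invFun))
          (c * 2 ^ ((φ.flatten.map Prod.fst).toFinset.card / k) * (w.length + 2) ^ c)) := by
  obtain ⟨F, hF, h⟩ := exists_test M T hT hM
  intro k hk
  obtain ⟨M', c, h1, h2⟩ := notETH_of_pt F hF h k hk
  exact ⟨M', c, h1, fun φ w hw h3 ans h4 => hw ▸ h2 φ h3 ans h4⟩
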