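import Pool.Agent.Work.MP_0bf9cb_lc.Eth.Main

/-!
A deterministic many-one reduction from 3-SAT to the vertex enumeration decision problem for
polytopes that runs in time `2 ^ O(sqrt (m * log L))` on formulas with `m` clauses and length `L`.
-/

open Pool.Agent.Lib.Poly Pool.Agent.Work.MP_0bf9cb_lc Pool.Agent.Work.MP_0bf9cb_lc.Eth in
theorem Pool.Agent.Results.MP_0bf9cb_lc.SatReduction.result :
    ∃ (M : Turing.TM2ComputableAux Bool Bool) (c : ℕ), (∀ k, Finite (M.tm.Γ k)) ∧
      ∀ (φ : List (List (ℕ × Bool))) (w : List Bool), w = N487b59b3.bitEncode φ →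
        (∀ C ∈ φ, C.length ≤ 3) →
        ∃ (m d n : ℕ) (A : Fin m → Fin d → ℚ) (b : Fin m → ℚ) (V : Fin n → Fin d → ℚ)
          (P : Set (Fin d → ℝ)) (u : List Bool),
          P = {x | ∀ i, ∑ j, (A i j : ℝ) * x j ≤ b i} ∧
          u = N487b59b3.bitEncode (List.ofFn fun i => List.ofFn (A i), List.ofFn b,
            List.ofFn fun k => List.ofFn (V k)) ∧
          Bornology.IsBounded P ∧ Function.Injective V ∧
          (∀ k, (fun j => (V k j : ℝ)) ∈ P.extremePoints ℝ) ∧
          ((∃ x ∈ P.extremePoints ℝ, ∀ k, x ≠ fun j => (V k j : ℝ)) ↔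
            ∃ a : ℕ → Bool, ∀ C ∈ φ, ∃ l ∈ C, a l.1 = l.2) ∧
          ∀ e : ℕ, φ.length ≤ e ^ 2 * Nat.log 2 (w.length + 2) →
            Nonempty (Turing.TM2OutputsInTime M.tm (w.map M.inputAlphabet.invFun)
              (some (u.map M.outputAlphabet.invFun)) ((w.length + 2) ^ (c * (e + 1)))) := by
  obtain ⟨M, c, hM, hc⟩ := exists_tm_out pt_e0 outF
    (pt_outF (PT.fst (pt_val _)) fun x => by rw [← x.2]; exact sz_snd_le x.1 |>.trans' (by simp))
  refine ⟨M, c, hM, ?_⟩
  rintro φ _ rfl h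
  obtain ⟨m, d, n, A, b, V, h1, h2, h3, h4, h5⟩ := outF_spec (toB φ) (by
    simpa only [toB, List.forall_mem_map, List.length_map] using h)
  refine ⟨m, d, n, A, b, V, _, _, rfl, rfl, h2, h3, h4, h5.trans (sat_toB φ), fun e he => ?_⟩
  have := hc (toB φ) e ((e0_spec _).2 e (by rw [lg, sz, enc_toB]; simpa [toB] using he))
  rw [sz, enc_toB, ← h1] at this
  exact this
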