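import Pool.Agent.Work.MP_0bf9cb_lc.Main3

/-!
A deterministic algorithm for the vertex enumeration decision problem of arbitrary polytopes
with running time `N ^ O(min (d, sqrt (m - d), sqrt (d * log ^ 3 (m + n))))`.
-/

open Pool.Agent.Lib.Poly Pool.Agent.Work.MP_0bf9cb_lc in
theorem Pool.Agent.Results.MP_0bf9cb_lc.Subexponential.result :
    ∃ (M : Turing.TM2ComputableAux Bool Bool) (c : ℕ), (∀ k, Finite (M.tm.Γ k)) ∧
      ∀ (m d n : ℕ) (A : Fin m → Fin d → ℚ) (b : Fin m → ℚ) (V : Fin n → Fin d → ℚ)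
        (P : Set (Fin d → ℝ)) (w : List Bool),
        P = {x | ∀ i, ∑ j, (A i j : ℝ) * x j ≤ b i} →
        w = N487b59b3.bitEncode (List.ofFn fun i => List.ofFn (A i), List.ofFn b,
          List.ofFn fun k => List.ofFn (V k)) →
        Bornology.IsBounded P → (∀ k, (fun j => (V k j : ℝ)) ∈ P.extremePoints ℝ) →
        ∀ e : ℕ, (d ≤ e ∨ m ≤ d + e ^ 2 ∨ d * (Nat.log 2 (m + n + 1) + 1) ^ 3 ≤ e ^ 2) →
          ∀ ans : Bool,
          (ans = true ↔ ∃ x ∈ P.extremePoints ℝ, ∀ k, x ≠ fun j => (V k j : ℝ)) →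
          Nonempty (Turing.TM2OutputsInTime M.tm (w.map M.inputAlphabet.invFun)
            (some ([ans].map M.outputAlphabet.invFun)) ((w.length + 2) ^ (c * (e + 1)))) := by
  obtain ⟨T, hT', hT⟩ := exists_T
  obtain ⟨tl, ht, htl⟩ := exists_low
  have h1 := pt_dimI
  have h2 := pt_rowsI
  have h3 := pt_lgI
  let e0 : Inp → ℕ := fun a => (List.range (dimI a)).countP fun e =>
    decide (¬ (dimI a ≤ e + 1 ∨ (rowsI a).length ≤ dimI a + e ^ 2 ∨
      (dimI a - 1) * lgI a ^ 3 ≤ e ^ 2))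
  have he : PT e0 := by unfold e0; fun_prop
  have hs := fun a => least_spec (fun e => dimI a ≤ e + 1 ∨ (rowsI a).length ≤ dimI a + e ^ 2 ∨
      (dimI a - 1) * lgI a ^ 3 ≤ e ^ 2) (fun x y hxy h => by
        have := Nat.pow_le_pow_left hxy 2; omega) (dimI a) (Or.inl (by omega))
  let c1 : Inp → Bool := fun a =>
    decide (dimI a ≤ e0 a + 1 ∨ (rowsI a).length ≤ dimI a + e0 a ^ 2)
  have hc1 : PT c1 := by unfold c1; fun_prop
  have hc3 : ∀ a, c1 a = false → Cond3 a (e0 a) := fun a h => by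
    have h' := of_decide_eq_false h
    have h'' : dimI a ≤ e0 a + 1 ∨ (rowsI a).length ≤ dimI a + e0 a ^ 2 ∨
      (dimI a - 1) * lgI a ^ 3 ≤ e0 a ^ 2 := (hs a).1
    unfold Cond3
    omega
  have hz : PT fun a => decide (0 ∈ T a) := by fun_prop
  have h4 := pt_run1 (e := e0) hT hT' he (hz.and hc1) (fun a h => by simpa [c1, Cond1] using h)
    (pt_inp (e := e0)) fun x => ⟨x.2.1, (pad_le x).1⟩
  have h5 := pt_run3 (e := e0) htl (PT.isPoly ht) he (hz.and hc1.not) (pt_inp (e := e0))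
    fun x => ⟨(pad_le x).1, fun h => by
      simp only [Bool.and_eq_true, decide_eq_true_eq, Bool.not_eq_true'] at h
      exact ⟨hc3 _ h.2, (x.2.1 ((hT.zero_iff _).1 h.1)).2⟩⟩
  obtain ⟨M, c, hM, hc⟩ := exists_tm he Prom (fun a => decide (0 ∈ T a) && !(bif c1 a then
    (run1 T e0 a (bif decide (0 ∈ T a) && c1 a then dimI a + 1 else 0)).2 else
    (run3 tl e0 a (bif decide (0 ∈ T a) && !c1 a then depth3 e0 a else 0)).2))
    ((hz.comp pt_inp).and (PT.cond (hc1.comp pt_inp) h4.snd h5.snd).not)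
  refine ⟨M, c, hM, ?_⟩
  rintro m d n A b V _ _ rfl rfl hb hV e hcond ans hans
  obtain ⟨p1, p2⟩ := prom_ans A b V hb hV
  have hd := dimI_eq A b V hb
  have := hc (mkInp A b V) p1 e ((hs _).2 e (by
    have e1 : lgI (mkInp A b V) = Nat.log 2 (m + n + 1) + 1 := by
      have := Nat.size_pos.2 (show 0 < m + n + 1 by omega)
      rw [lgI, length_rowsI, length_famI, log_eq_size]
      simp only [mkInp, List.length_ofFn, Nat.add_right_comm m 1 n]
      omega
    rw [hd, length_rowsI, e1]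
    simp only [mkInp, List.length_ofFn, Nat.add_sub_cancel]
    omega))
  have key : ∀ a, Prom a → ((decide (0 ∈ T a) && !(bif c1 a then
      (run1 T e0 a (bif decide (0 ∈ T a) && c1 a then dimI a + 1 else 0)).2 else
      (run3 tl e0 a (bif decide (0 ∈ T a) && !c1 a then depth3 e0 a else 0)).2)) = true ↔
        Ans a) := by
    intro a ha
    rw [Ans, ← hT.zero_iff]
    by_cases h0 : 0 ∈ T a
    · cases h : c1 a
      · simp [h0, ← run3_spec (e := e0) htl (hc3 a h) (ha ((hT.zero_iff a).1 h0)).2]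
      · simp [h0, ← run1_spec (e := e0) hT ha h0]
    · simp [h0]
  rw [Bool.eq_iff_iff.2 (hans.trans (p2.symm.trans (key _ p1).symm))]
  exact this
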